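import Pool.Agent.V1143.HC.Main

/-!
# A pure and integral character which is not de Rham

For every odd prime `l` there is a continuous character `ρ` of the absolute Galois group of `ℚ` with
values in `GL₁(ℚ̄_l)` (its square is the inverse of the cyclotomic character, up to a character of
finite order) which is unramified outside `l`, such that the geometric Frobenius elements at every
prime `p ≠ l` are mapped to algebraic integers with all complex absolute values equal to
`p ^ (1 / 2)`, but which is not de Rham at `l`. So the condition (2) of the problem (with `w = 1`) does
not imply the condition (1).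
-/

set_option autoImplicit false

namespace Pool.Agent.Results.MP_395897_nt.HalfCyclotomic

open Pool.Agent.V1143.HC

theorem result (l : ℕ) [Fact l.Prime] (hl : l ≠ 2) :
    ∃ ρ : Character l, Continuous ρ ∧
      (∀ p : ℕ, p.Prime → p ≠ l → Unram ρ p ∧ IntegralPure ρ p 1) ∧
      ∀ D : DeRhamField l, ¬ IsDeRham D ρ :=
  ⟨half hl, continuous_half hl, fun _ hp hpl => ⟨unram_half hl hp hpl, integralPure_half hl hp hpl⟩,
    not_isDeRham_half hl⟩

end Pool.Agent.Results.MP_395897_nt.HalfCyclotomic
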